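import Pool.Agent.R296.VC.Quad

/-! # Bessel's inequality for the shifts of a function with small two point correlations (helper708) -/

set_option autoImplicit false

namespace Pool.Agent.U708.MS

open Finset Filter Topology
open Pool.Agent.Helper602.MK (ee)
open Pool.Agent.Helper602.MK.N_J1c (c_ee_add c_ee_int c_norm_ee)
open Pool.Agent.Y842.PH Pool.Agent.R296.RE Pool.Agent.R296.VC

noncomputable section

lemma sum_Icc_range {M : Type*} [AddCommMonoid M] (F : ℕ → M) (N : ℕ) :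
    ∑ n ∈ Icc 1 N, F n = ∑ k ∈ range N, F (k + 1) := by
  rw [range_eq_Ico, sum_Ico_add' F 0 N 1, zero_add]
  exact sum_congr rfl (fun _ _ => rfl)

/-- two shifts, ordered -/
lemma pair1 {f : ℕ → ℤ} (hb : ∀ n, |f n| ≤ 1) {E : Set ℕ} (hE : Kf f E) (a b : ℕ) (hab : a < b) (η : ℝ)
    (hη : 0 < η) : ∃ N₀ : ℕ, ∀ N ≥ N₀, N ∉ E → ∀ α : ℝ,
      ‖∑ n ∈ Icc 1 N, ((f (n + a) : ℂ) * f (n + b)) * ee (α * n)‖ ≤ η * N := by
  obtain ⟨k, rfl⟩ := Nat.exists_eq_add_of_lt hab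
  obtain ⟨N₀, h1⟩ := Kf_shift hb hE (a + 1) (k + 1) (by omega) η hη
  refine ⟨N₀, fun N hN hNE α => ?_⟩
  refine le_trans (le_of_eq ?_) (h1 N hN hNE α)
  have e1 : ∑ n ∈ Icc 1 N, ((f (n + a) : ℂ) * f (n + (a + k + 1))) * ee (α * n) =
      ee α * Cr (fun n => f (n + (a + 1))) (k + 1) N α := by
    rw [sum_Icc_range, Cr, mul_sum]
    refine sum_congr rfl fun n _ => ?_
    have e2 : ee (α * ((n + 1 : ℕ) : ℝ)) = ee (α * n) * ee α := by
      rw [← c_ee_add]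
      congr 1
      push_cast
      ring
    rw [e2, show n + 1 + a = n + (a + 1) by ring, show n + 1 + (a + k + 1) = n + (k + 1) + (a + 1) by ring]
    ring
  rw [e1, norm_mul, c_norm_ee, one_mul]

/-- two different shifts -/
lemma pair2 {f : ℕ → ℤ} (hb : ∀ n, |f n| ≤ 1) {E : Set ℕ} (hE : Kf f E) (a b : ℕ) (hab : a ≠ b) (η : ℝ)
    (hη : 0 < η) : ∃ N₀ : ℕ, ∀ N ≥ N₀, N ∉ E → ∀ α : ℝ,
      ‖∑ n ∈ Icc 1 N, ((f (n + a) : ℂ) * f (n + b)) * ee (α * n)‖ ≤ η * N := by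
  rcases Nat.lt_or_gt_of_ne hab with h | h
  · exact pair1 hb hE a b h η hη
  · obtain ⟨N₀, h1⟩ := pair1 hb hE b a h η hη
    refine ⟨N₀, fun N hN hNE α => ?_⟩
    refine le_trans (le_of_eq ?_) (h1 N hN hNE α)
    congr 1
    exact sum_congr rfl fun n _ => by ring

/-- uniformly for the pairs from a finite set -/
lemma pairs {f : ℕ → ℤ} (hb : ∀ n, |f n| ≤ 1) {E : Set ℕ} (hE : Kf f E) (S : Finset ℕ) (η : ℝ)
    (hη : 0 < η) : ∃ N₀ : ℕ, ∀ N ≥ N₀, N ∉ E → ∀ a ∈ S, ∀ b ∈ S, a ≠ b → ∀ α : ℝ,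
      ‖∑ n ∈ Icc 1 N, ((f (n + a) : ℂ) * f (n + b)) * ee (α * n)‖ ≤ η * N := by
  classical
  have h : ∀ a b : ℕ, ∃ N₀ : ℕ, a ≠ b → ∀ N ≥ N₀, N ∉ E → ∀ α : ℝ,
      ‖∑ n ∈ Icc 1 N, ((f (n + a) : ℂ) * f (n + b)) * ee (α * n)‖ ≤ η * N := by
    intro a b
    by_cases hab : a = b
    · exact ⟨0, fun h => absurd hab h⟩
    · obtain ⟨N₀, h1⟩ := pair2 hb hE a b hab η hη
      exact ⟨N₀, fun _ => h1⟩
  choose N₀ hN₀ using h
  refine ⟨∑ a ∈ S, ∑ b ∈ S, N₀ a b, fun N hN hNE a ha b hb' hab α => hN₀ a b hab N ?_ hNE α⟩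
  refine le_trans ?_ hN
  refine le_trans ?_ (single_le_sum (f := fun a => ∑ b ∈ S, N₀ a b) (fun _ _ => Nat.zero_le _) ha)
  exact single_le_sum (f := fun b => N₀ a b) (fun _ _ => Nat.zero_le _) hb'

/-- the mean of `v(n) e(θ n) f(n + h)` over `1 ≤ n ≤ N` -/
def mn (f : ℕ → ℤ) (v : ℕ → ℂ) (N : ℕ) (θ : ℝ) (h : ℕ) : ℂ :=
  (∑ n ∈ Icc 1 N, v n * ee (θ * n) * (f (n + h) : ℂ)) / N

lemma norm_u (f : ℕ → ℤ) (hb : ∀ n, |f n| ≤ 1) (θ : ℝ) (n h : ℕ) : ‖ee (θ * n) * (f (n + h) : ℂ)‖ ≤ 1 := by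
  rw [norm_mul, c_norm_ee, one_mul, Complex.norm_intCast]
  exact_mod_cast hb (n + h)

lemma norm_mn (f : ℕ → ℤ) (hb : ∀ n, |f n| ≤ 1) (v : ℕ → ℂ) (hv : ∀ n, ‖v n‖ ≤ 1) (N : ℕ) (hN : 1 ≤ N) (θ : ℝ)
    (h : ℕ) : ‖mn f v N θ h‖ ≤ 1 := by
  have hN0 : (0 : ℝ) < N := by exact_mod_cast hN
  unfold mn
  rw [norm_div, Complex.norm_natCast, div_le_one hN0]
  refine (norm_sum_le _ _).trans ((sum_le_sum (g := fun _ => (1 : ℝ)) fun n _ => ?_).trans (le_of_eq (by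
    rw [sum_const, Nat.card_Icc, nsmul_eq_mul]; simp)))
  rw [mul_assoc, norm_mul]
  exact mul_le_one₀ (hv n) (norm_nonneg _) (norm_u f hb θ n h)

/-- **Bessel's inequality** -/
theorem bessel {f : ℕ → ℤ} (hb : ∀ n, |f n| ≤ 1) {E : Set ℕ} (hE : Kf f E) (S : Finset ℕ) (ε : ℝ)
    (hε : 0 < ε) : ∃ N₀ : ℕ, ∀ N ≥ N₀, N ∉ E → ∀ v : ℕ → ℂ, (∀ n, ‖v n‖ ≤ 1) → ∀ θ : ℕ → ℝ, ∀ T ⊆ S,
      ∑ h ∈ T, ‖mn f v N (θ h) h‖ ^ 2 ≤ (∑ n ∈ Icc 1 N, ‖v n‖ ^ 2) / N + ε := by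
  classical
  set η : ℝ := ε / ((S.card : ℝ) ^ 2 + 1) with hη
  have hη0 : 0 < η := by positivity
  obtain ⟨N₀, h1⟩ := pairs hb hE S η hη0
  refine ⟨N₀ + 1, fun N hN hNE v hv θ T hT => ?_⟩
  have hNpos : 1 ≤ N := by omega
  have hN0 : (0 : ℝ) < N := by exact_mod_cast hNpos
  have hNC : (N : ℂ) ≠ 0 := by exact_mod_cast hN0.ne'
  set c : ℕ → ℂ := fun h => mn f v N (θ h) h with hc
  set u : ℕ → ℕ → ℂ := fun h n => ee (θ h * n) * (f (n + h) : ℂ) with hu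
  set Q : ℕ → ℂ := fun n => ∑ h ∈ T, c h * (starRingEnd ℂ) (u h n) with hQ
  set A : ℝ := ∑ h ∈ T, ‖c h‖ ^ 2 with hA
  have hu1 : ∀ h n, ‖u h n‖ ≤ 1 := fun h n => norm_u f hb (θ h) n h
  have hc1 : ∀ h, ‖c h‖ ≤ 1 := fun h => norm_mn f hb v hv N hNpos (θ h) h
  have hcN : ∀ h, ∑ n ∈ Icc 1 N, v n * u h n = N * c h := by
    intro h
    simp only [hc, mn, hu]
    rw [mul_div_cancel₀ _ hNC]
    exact sum_congr rfl fun n _ => by ring
  -- the mixed term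
  have hmix : ∑ n ∈ Icc 1 N, (v n * (starRingEnd ℂ) (Q n)).re = N * A := by
    rw [← Complex.re_sum]
    have e1 : ∑ n ∈ Icc 1 N, v n * (starRingEnd ℂ) (Q n) = ((N * A : ℝ) : ℂ) := by
      have e2 : ∀ n, v n * (starRingEnd ℂ) (Q n) = ∑ h ∈ T, (starRingEnd ℂ) (c h) * (v n * u h n) := by
        intro n
        simp only [hQ]
        rw [map_sum, mul_sum]
        refine sum_congr rfl fun h _ => ?_
        have e7 : (starRingEnd ℂ) (c h * (starRingEnd ℂ) (u h n)) = (starRingEnd ℂ) (c h) * u h n := by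
          rw [map_mul, Complex.conj_conj]
        rw [e7]
        ring
      rw [sum_congr rfl fun n _ => e2 n, sum_comm]
      have e3 : ∀ h ∈ T, ∑ n ∈ Icc 1 N, (starRingEnd ℂ) (c h) * (v n * u h n) = ((N * ‖c h‖ ^ 2 : ℝ) : ℂ) := by
        intro h _
        rw [← mul_sum, hcN]
        have : (starRingEnd ℂ) (c h) * (N * c h) = N * (c h * (starRingEnd ℂ) (c h)) := by ring
        rw [this, Complex.mul_conj']
        push_cast
        ring
      rw [sum_congr rfl e3, ← Complex.ofReal_sum, ← mul_sum]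
    rw [e1, Complex.ofReal_re]
  -- the quadratic term
  have hquad : ∑ n ∈ Icc 1 N, ‖Q n‖ ^ 2 ≤ N * A + ε * N := by
    have e1 : ∀ n, ‖Q n‖ ^ 2 = ∑ h ∈ T, ∑ h' ∈ T, ((c h * (starRingEnd ℂ) (c h')) *
        ((starRingEnd ℂ) (u h n) * u h' n)).re := by
      intro n
      have e2 : ((‖Q n‖ ^ 2 : ℝ) : ℂ) = ∑ h ∈ T, ∑ h' ∈ T, ((c h * (starRingEnd ℂ) (c h')) *
        ((starRingEnd ℂ) (u h n) * u h' n)) := by
        push_cast
        rw [← Complex.mul_conj']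
        simp only [hQ]
        rw [map_sum, sum_mul_sum]
        refine sum_congr rfl fun h _ => sum_congr rfl fun h' _ => ?_
        have e7 : (starRingEnd ℂ) (c h' * (starRingEnd ℂ) (u h' n)) = (starRingEnd ℂ) (c h') * u h' n := by
          rw [map_mul, Complex.conj_conj]
        rw [e7]
        ring
      have e3 := congrArg Complex.re e2
      rw [Complex.ofReal_re] at e3
      rw [e3, Complex.re_sum]
      exact sum_congr rfl fun h _ => Complex.re_sum _ _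
    have e4 : ∀ h ∈ T, ∀ h' ∈ T, ∑ n ∈ Icc 1 N, ((c h * (starRingEnd ℂ) (c h')) *
        ((starRingEnd ℂ) (u h n) * u h' n)).re ≤ (if h = h' then N * ‖c h‖ ^ 2 else 0) + η * N := by
      intro h hh h' hh'
      by_cases hE' : h = h'
      · subst hE'
        rw [if_pos rfl]
        have e5 : ∑ n ∈ Icc 1 N, ((c h * (starRingEnd ℂ) (c h)) * ((starRingEnd ℂ) (u h n) * u h n)).re ≤
            ∑ _n ∈ Icc 1 N, ‖c h‖ ^ 2 := by
          refine sum_le_sum fun n _ => ?_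
          rw [mul_comm ((starRingEnd ℂ) (u h n)) (u h n), Complex.mul_conj', Complex.mul_conj']
          have e6 : ((‖c h‖ : ℂ) ^ 2 * (‖u h n‖ : ℂ) ^ 2) = ((‖c h‖ ^ 2 * ‖u h n‖ ^ 2 : ℝ) : ℂ) := by
            push_cast; ring
          rw [e6, Complex.ofReal_re]
          have h2 : ‖u h n‖ ^ 2 ≤ 1 := pow_le_one₀ (norm_nonneg _) (hu1 h n)
          nlinarith [sq_nonneg ‖c h‖]
        rw [sum_const, Nat.card_Icc, nsmul_eq_mul, Nat.add_sub_cancel] at e5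
        have : 0 ≤ η * N := by positivity
        linarith
      · rw [if_neg hE', zero_add]
        have e5 : ∑ n ∈ Icc 1 N, ((c h * (starRingEnd ℂ) (c h')) * ((starRingEnd ℂ) (u h n) * u h' n)).re =
            ((c h * (starRingEnd ℂ) (c h')) * ∑ n ∈ Icc 1 N, ((f (n + h) : ℂ) * f (n + h')) *
              ee ((θ h' - θ h) * n)).re := by
          rw [mul_sum, Complex.re_sum]
          refine sum_congr rfl fun n _ => ?_
          congr 2
          simp only [hu]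
          rw [map_mul, map_intCast]
          have h2 : (starRingEnd ℂ) (ee (θ h * n)) = ee (-(θ h * n)) := by
            unfold ee
            rw [← Complex.exp_conj]
            congr 1
            simp only [map_mul, Complex.conj_ofReal, Complex.conj_I, Complex.ofReal_neg, map_ofNat, map_natCast,
              Complex.ofReal_mul, Complex.ofReal_natCast]
            ring
          have h3 : ee (-(θ h * n)) * ee (θ h' * n) = ee ((θ h' - θ h) * n) := by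
            rw [← c_ee_add]
            congr 1
            ring
          rw [h2]
          calc ee (-(θ h * n)) * (f (n + h) : ℂ) * (ee (θ h' * n) * (f (n + h') : ℂ)) =
              ((f (n + h) : ℂ) * f (n + h')) * (ee (-(θ h * n)) * ee (θ h' * n)) := by ring
            _ = _ := by rw [h3]
        rw [e5]
        refine (Complex.re_le_norm _).trans ?_
        rw [norm_mul, norm_mul, Complex.norm_conj]
        have h2 := h1 N (by omega) hNE h (hT hh) h' (hT hh') hE' (θ h' - θ h)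
        calc ‖c h‖ * ‖c h'‖ * _ ≤ 1 * (η * N) :=
              mul_le_mul (mul_le_one₀ (hc1 h) (norm_nonneg _) (hc1 h')) h2 (norm_nonneg _) zero_le_one
          _ = _ := one_mul _
    have hTS : (T.card : ℝ) ≤ S.card := by exact_mod_cast card_le_card hT
    calc ∑ n ∈ Icc 1 N, ‖Q n‖ ^ 2 = ∑ h ∈ T, ∑ h' ∈ T, ∑ n ∈ Icc 1 N, ((c h * (starRingEnd ℂ) (c h')) *
        ((starRingEnd ℂ) (u h n) * u h' n)).re := by
          rw [sum_congr rfl fun n _ => e1 n, sum_comm]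
          refine sum_congr rfl fun h _ => ?_
          rw [sum_comm]
      _ ≤ ∑ h ∈ T, ∑ h' ∈ T, ((if h = h' then N * ‖c h‖ ^ 2 else 0) + η * N) :=
          sum_le_sum fun h hh => sum_le_sum fun h' hh' => e4 h hh h' hh'
      _ = N * A + (T.card : ℝ) ^ 2 * (η * N) := by
          have : ∀ h ∈ T, ∑ h' ∈ T, ((if h = h' then (N : ℝ) * ‖c h‖ ^ 2 else 0) + η * N) =
              N * ‖c h‖ ^ 2 + T.card * (η * N) := by
            intro h hh
            rw [sum_add_distrib, sum_ite_eq, if_pos hh, sum_const, nsmul_eq_mul]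
          rw [sum_congr rfl this, sum_add_distrib, ← mul_sum, sum_const, nsmul_eq_mul]
          ring
      _ ≤ N * A + ε * N := by
          refine add_le_add le_rfl ?_
          have h2 : (T.card : ℝ) ^ 2 * η ≤ ε := by
            rw [hη, mul_div_assoc', div_le_iff₀ (by positivity)]
            have h3 : (T.card : ℝ) ^ 2 ≤ (S.card : ℝ) ^ 2 := pow_le_pow_left₀ (Nat.cast_nonneg _) hTS 2
            nlinarith
          calc (T.card : ℝ) ^ 2 * (η * N) = ((T.card : ℝ) ^ 2 * η) * N := by ring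
            _ ≤ ε * N := mul_le_mul_of_nonneg_right h2 hN0.le
  have hpos : 0 ≤ ∑ n ∈ Icc 1 N, ‖v n - Q n‖ ^ 2 := sum_nonneg fun n _ => sq_nonneg _
  have hexp : ∑ n ∈ Icc 1 N, ‖v n - Q n‖ ^ 2 = ∑ n ∈ Icc 1 N, ‖v n‖ ^ 2 + ∑ n ∈ Icc 1 N, ‖Q n‖ ^ 2 -
      2 * ∑ n ∈ Icc 1 N, (v n * (starRingEnd ℂ) (Q n)).re := by
    rw [mul_sum, ← sum_add_distrib, ← sum_sub_distrib]
    refine sum_congr rfl fun n _ => ?_
    have h2 := Complex.normSq_sub (v n) (Q n)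
    rw [Complex.normSq_eq_norm_sq, Complex.normSq_eq_norm_sq, Complex.normSq_eq_norm_sq] at h2
    exact h2
  rw [hexp, hmix] at hpos
  have h3 : N * A ≤ ∑ n ∈ Icc 1 N, ‖v n‖ ^ 2 + ε * N := by linarith
  rw [show (∑ n ∈ Icc 1 N, ‖v n‖ ^ 2) / N + ε = (∑ n ∈ Icc 1 N, ‖v n‖ ^ 2 + ε * N) / N by field_simp,
    le_div_iff₀ hN0]
  linarith

end

end Pool.Agent.U708.MS
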