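import Mathlib

/-! # Fourier analysis on the subsets of a finite set: sign patterns and correlations (helper708) -/

set_option autoImplicit false

namespace Pool.Agent.U708.MS

open Finset

noncomputable section

/-- the sign of `h` for the set `T` -/
def sg (T : Finset ℕ) (h : ℕ) : ℂ := if h ∈ T then -1 else 1

/-- the character -/
def chi (I T : Finset ℕ) : ℂ := ∏ h ∈ I, sg T h

lemma chi_eq (I T : Finset ℕ) : chi I T = (-1) ^ (I ∩ T).card := by
  classical
  unfold chi sg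
  rw [prod_ite, prod_const, prod_const_one, mul_one, filter_mem_eq_inter]

lemma chi_comm (I T : Finset ℕ) : chi I T = chi T I := by
  rw [chi_eq, chi_eq, inter_comm]

lemma chi_empty (T : Finset ℕ) : chi ∅ T = 1 := by
  unfold chi
  rw [prod_empty]

lemma chi_conj (I T : Finset ℕ) : (starRingEnd ℂ) (chi I T) = chi I T := by
  rw [chi_eq, map_pow, map_neg, map_one]

lemma orth (D T T' : Finset ℕ) (hT : T ⊆ D) (hT' : T' ⊆ D) :
    ∑ I ∈ D.powerset, chi I T * chi I T' = if T = T' then (2 : ℂ) ^ D.card else 0 := by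
  classical
  have h1 : ∀ I ∈ D.powerset, chi I T * chi I T' = ∏ h ∈ I, (sg T h * sg T' h) := by
    intro I _
    unfold chi
    rw [prod_mul_distrib]
  rw [sum_congr rfl h1, ← prod_one_add]
  split_ifs with h
  · subst h
    have h2 : ∀ h ∈ D, 1 + sg T h * sg T h = 2 := by
      intro h _
      unfold sg
      split_ifs <;> norm_num
    rw [prod_congr rfl h2, prod_const]
  · -- some element is in one of the sets only
    have h2 : ∃ x ∈ D, sg T x * sg T' x = -1 := by
      by_contra hcon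
      push Not at hcon
      apply h
      ext x
      constructor
      · intro hx
        by_contra hx'
        apply hcon x (hT hx)
        unfold sg
        rw [if_pos hx, if_neg hx']
        norm_num
      · intro hx
        by_contra hx'
        apply hcon x (hT' hx)
        unfold sg
        rw [if_pos hx, if_neg hx']
        norm_num
    obtain ⟨x, hx, h3⟩ := h2
    exact prod_eq_zero hx (by rw [h3]; norm_num)

/-- Parseval -/
theorem parseval (D : Finset ℕ) (F : Finset ℕ → ℂ) :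
    ∑ I ∈ D.powerset, ‖∑ T ∈ D.powerset, chi I T * F T‖ ^ 2 = 2 ^ D.card * ∑ T ∈ D.powerset, ‖F T‖ ^ 2 := by
  classical
  have h1 : ((∑ I ∈ D.powerset, ‖∑ T ∈ D.powerset, chi I T * F T‖ ^ 2 : ℝ) : ℂ) =
      ((2 ^ D.card * ∑ T ∈ D.powerset, ‖F T‖ ^ 2 : ℝ) : ℂ) := by
    push_cast
    have h2 : ∀ I ∈ D.powerset, ((‖∑ T ∈ D.powerset, chi I T * F T‖ : ℂ)) ^ 2 =
        ∑ T ∈ D.powerset, ∑ T' ∈ D.powerset, (chi I T * chi I T') * (F T * (starRingEnd ℂ) (F T')) := by
      intro I _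
      rw [← Complex.mul_conj', map_sum, sum_mul_sum]
      refine sum_congr rfl fun T _ => sum_congr rfl fun T' _ => ?_
      rw [map_mul, chi_conj]
      ring
    rw [sum_congr rfl h2, sum_comm, mul_sum]
    refine sum_congr rfl fun T hT => ?_
    rw [sum_comm]
    have h3 : ∀ T' ∈ D.powerset, ∑ I ∈ D.powerset, (chi I T * chi I T') * (F T * (starRingEnd ℂ) (F T')) =
        if T = T' then (2 : ℂ) ^ D.card * (F T * (starRingEnd ℂ) (F T)) else 0 := by
      intro T' hT'
      rw [← sum_mul, orth D T T' (mem_powerset.1 hT) (mem_powerset.1 hT')]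
      split_ifs with h
      · rw [h]
      · rw [zero_mul]
    rw [sum_congr rfl h3, sum_ite_eq, if_pos hT, Complex.mul_conj']
  exact_mod_cast h1

variable {ι : Type*}

/-- the weight of the `n` with the pattern `T` -/
def frq (U : Finset ι) (s : ι → Finset ℕ) (x : ι → ℂ) (T : Finset ℕ) : ℂ := by
  classical
  exact ∑ n ∈ U.filter (fun n => s n = T), x n

lemma sum_chi_frq (U : Finset ι) (D : Finset ℕ) (s : ι → Finset ℕ) (hs : ∀ n ∈ U, s n ⊆ D) (x : ι → ℂ)
    (I : Finset ℕ) : ∑ T ∈ D.powerset, chi I T * frq U s x T = ∑ n ∈ U, chi I (s n) * x n := by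
  classical
  have h1 : ∀ T ∈ D.powerset, chi I T * frq U s x T = ∑ n ∈ U.filter (fun n => s n = T), chi I (s n) * x n := by
    intro T _
    unfold frq
    rw [mul_sum]
    refine sum_congr rfl fun n hn => ?_
    rw [(mem_filter.1 hn).2]
  rw [sum_congr rfl h1]
  exact sum_fiberwise_of_maps_to (fun n hn => mem_powerset.2 (hs n hn)) _

/-- the square of the distance of the pattern weights from equidistribution -/
theorem disc_eq (U : Finset ι) (D : Finset ℕ) (s : ι → Finset ℕ) (hs : ∀ n ∈ U, s n ⊆ D) (x : ι → ℂ) :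
    2 ^ D.card * ∑ T ∈ D.powerset, ‖frq U s x T - (∑ n ∈ U, x n) / 2 ^ D.card‖ ^ 2 =
      ∑ I ∈ D.powerset.erase ∅, ‖∑ n ∈ U, chi I (s n) * x n‖ ^ 2 := by
  classical
  rw [← parseval, ← sum_erase_add _ _ (empty_mem_powerset D)]
  have h2 : (2 : ℂ) ^ D.card ≠ 0 := pow_ne_zero _ two_ne_zero
  have h1 : ∀ I ∈ D.powerset, ∑ T ∈ D.powerset, chi I T * (frq U s x T - (∑ n ∈ U, x n) / 2 ^ D.card) =
      ∑ n ∈ U, chi I (s n) * x n - if I = ∅ then ∑ n ∈ U, x n else 0 := by
    intro I hI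
    have h3 : ∑ T ∈ D.powerset, chi I T = if I = ∅ then (2 : ℂ) ^ D.card else 0 := by
      have h4 := orth D I ∅ (mem_powerset.1 hI) (empty_subset D)
      rw [← h4]
      refine sum_congr rfl fun T _ => ?_
      rw [chi_comm T ∅, chi_empty, mul_one, chi_comm]
    calc ∑ T ∈ D.powerset, chi I T * (frq U s x T - (∑ n ∈ U, x n) / 2 ^ D.card)
        = ∑ T ∈ D.powerset, chi I T * frq U s x T - (∑ T ∈ D.powerset, chi I T) * ((∑ n ∈ U, x n) / 2 ^ D.card) := by
          rw [sum_mul, ← sum_sub_distrib]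
          exact sum_congr rfl fun T _ => mul_sub _ _ _
      _ = _ := by
          rw [sum_chi_frq U D s hs x I, h3]
          congr 1
          split_ifs
          · field_simp
          · rw [zero_mul]
  rw [h1 ∅ (empty_mem_powerset D), if_pos rfl]
  have h4 : ∑ n ∈ U, chi ∅ (s n) * x n = ∑ n ∈ U, x n :=
    sum_congr rfl fun n _ => by rw [chi_empty, one_mul]
  rw [h4, sub_self, norm_zero]
  rw [show (0 : ℝ) ^ 2 = 0 by norm_num, add_zero]
  refine sum_congr rfl fun I hI => ?_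
  rw [mem_erase] at hI
  rw [h1 I hI.2, if_neg hI.1, sub_zero]

/-- one pattern -/
theorem one_pattern (U : Finset ι) (D : Finset ℕ) (s : ι → Finset ℕ) (hs : ∀ n ∈ U, s n ⊆ D) (x : ι → ℂ)
    (T : Finset ℕ) (hT : T ⊆ D) :
    (2 ^ D.card * ‖frq U s x T - (∑ n ∈ U, x n) / 2 ^ D.card‖) ^ 2 ≤
      2 ^ D.card * ∑ I ∈ D.powerset.erase ∅, ‖∑ n ∈ U, chi I (s n) * x n‖ ^ 2 := by
  classical
  rw [← disc_eq U D s hs x]
  have h1 : ‖frq U s x T - (∑ n ∈ U, x n) / 2 ^ D.card‖ ^ 2 ≤
      ∑ T ∈ D.powerset, ‖frq U s x T - (∑ n ∈ U, x n) / 2 ^ D.card‖ ^ 2 :=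
    single_le_sum (f := fun T => ‖frq U s x T - (∑ n ∈ U, x n) / 2 ^ D.card‖ ^ 2) (fun _ _ => sq_nonneg _)
      (mem_powerset.2 hT)
  have h2 : (0 : ℝ) ≤ 2 ^ D.card * 2 ^ D.card := by positivity
  have h3 := mul_le_mul_of_nonneg_left h1 h2
  calc _ = 2 ^ D.card * 2 ^ D.card * ‖frq U s x T - (∑ n ∈ U, x n) / 2 ^ D.card‖ ^ 2 := by ring
    _ ≤ _ := h3
    _ = _ := by ring

/-- total variation -/
theorem total_var (U : Finset ι) (D : Finset ℕ) (s : ι → Finset ℕ) (hs : ∀ n ∈ U, s n ⊆ D) (x : ι → ℂ) :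
    (∑ T ∈ D.powerset, ‖frq U s x T - (∑ n ∈ U, x n) / 2 ^ D.card‖) ^ 2 ≤
      ∑ I ∈ D.powerset.erase ∅, ‖∑ n ∈ U, chi I (s n) * x n‖ ^ 2 := by
  classical
  rw [← disc_eq U D s hs x]
  have h1 := sq_sum_le_card_mul_sum_sq (s := D.powerset)
    (f := fun T => ‖frq U s x T - (∑ n ∈ U, x n) / 2 ^ D.card‖)
  rw [card_powerset] at h1
  push_cast at h1
  exact h1

end

end Pool.Agent.U708.MS
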