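import Pool.Agent.U708.MS.Main

/-! # An infinite set of shifts contains an infinite set on which the signs are nearly independent (helper708) -/

set_option autoImplicit false

namespace Pool.Agent.U708.MS

open Finset Filter Topology
open Pool.Agent.Helper602.MK (ee)
open Pool.Agent.Y842.PH Pool.Agent.R296.RE Pool.Agent.R296.VC

noncomputable section

variable {f : ℕ → ℤ}

lemma norm_cor (hf : ∀ n, f n = 1 ∨ f n = -1) (I : Finset ℕ) (N : ℕ) : ‖cor f (fun _ => 1) I N 0‖ ≤ 1 := by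
  unfold cor
  rw [norm_div, Complex.norm_natCast]
  apply div_le_one_of_le₀ _ (Nat.cast_nonneg _)
  refine (norm_sum_le _ _).trans ((sum_le_sum (g := fun _ => (1 : ℝ)) fun n _ => ?_).trans (le_of_eq (by
    rw [sum_const, Nat.card_Icc, nsmul_eq_mul]; simp)))
  rw [norm_mul, norm_prod_one hf, norm_mul, norm_one, one_mul, mul_one]
  exact (Pool.Agent.Helper602.MK.N_J1c.c_norm_ee _).le

/-- a sequence of scales along which all correlations converge -/
lemma scales (hf : ∀ n, f n = 1 ∨ f n = -1) {𝒩 : Set ℕ} (h𝒩 : 𝒩.Infinite) :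
    ∃ u : ℕ → ℕ, StrictMono u ∧ (∀ j, u j ∈ 𝒩) ∧ ∃ L : Finset ℕ → ℂ, ∀ I,
      Tendsto (fun j => cor f (fun _ => 1) I (u j) 0) atTop (𝓝 (L I)) := by
  classical
  have h1 : StrictMono (Nat.nth (fun n => n ∈ 𝒩)) := Nat.nth_strictMono h𝒩
  have h2 : ∀ j, Nat.nth (fun n => n ∈ 𝒩) j ∈ 𝒩 := fun j => Nat.nth_mem_of_infinite h𝒩 j
  set v := Nat.nth (fun n => n ∈ 𝒩) with hv
  have hK : IsCompact (Set.pi Set.univ (fun _ : Finset ℕ => Metric.closedBall (0 : ℂ) 1)) :=
    isCompact_univ_pi fun _ => isCompact_closedBall 0 1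
  obtain ⟨L, -, φ, hφ, hL⟩ := hK.tendsto_subseq (x := fun j => fun I => cor f (fun _ => 1) I (v j) 0) (by
    intro j I _
    rw [mem_closedBall_zero_iff]
    exact norm_cor hf I (v j))
  refine ⟨fun j => v (φ j), h1.comp hφ, fun j => h2 _, L, fun I => ?_⟩
  exact (tendsto_pi_nhds.1 hL) I

/-- Bessel's inequality in the limit -/
lemma lim_bessel (hf : ∀ n, f n = 1 ∨ f n = -1) {E : Set ℕ} (hE : Kf f E) {u : ℕ → ℕ} (hu : StrictMono u)
    (huE : ∀ j, u j ∉ E) {L : Finset ℕ → ℂ} (hL : ∀ I, Tendsto (fun j => cor f (fun _ => 1) I (u j) 0) atTop (𝓝 (L I)))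
    (J T : Finset ℕ) (hT : Disjoint T J) : ∑ h ∈ T, ‖L (insert h J)‖ ^ 2 ≤ 1 := by
  classical
  refine le_of_forall_pos_le_add fun ε hε => ?_
  obtain ⟨N₀, h1⟩ := hyp hf hE (T ∪ J) ε hε
  have hlim : Tendsto (fun j => ∑ h ∈ T, ‖cor f (fun _ => 1) (insert h J) (u j) 0‖ ^ 2) atTop
      (𝓝 (∑ h ∈ T, ‖L (insert h J)‖ ^ 2)) := tendsto_finsetSum _ fun h _ => ((hL _).norm.pow 2)
  refine le_of_tendsto hlim ?_
  filter_upwards [eventually_ge_atTop (N₀ + 1)] with j hj
  have hj2 : N₀ + 1 ≤ u j := hj.trans (hu.id_le j)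
  have h2 := h1 (u j) (by omega) (huE j) (fun _ => 1) (fun _ => by simp) (fun _ => 0) J subset_union_right
  have e1 : (T ∪ J) \ J = T := by
    rw [union_sdiff_right]
    exact sdiff_eq_self_of_disjoint hT
  rw [e1] at h2
  refine h2.trans ?_
  have h3 : msq (fun _ => 1) (u j) = 1 := by
    unfold msq
    have h4 : (0 : ℝ) < u j := by exact_mod_cast (by omega : 0 < u j)
    simp only [norm_one, one_pow, sum_const, Nat.card_Icc, Nat.add_sub_cancel, nsmul_eq_mul, mul_one]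
    exact div_self h4.ne'
  rw [h3]

/-- finitely many exceptions -/
lemma few_exc {L : Finset ℕ → ℂ} {J : Finset ℕ} (h : ∀ T : Finset ℕ, Disjoint T J →
    ∑ h ∈ T, ‖L (insert h J)‖ ^ 2 ≤ 1) (κ : ℝ) (hκ : 0 < κ) : {h : ℕ | h ∉ J ∧ κ < ‖L (insert h J)‖}.Finite := by
  classical
  by_contra hinf
  have hinf' : {h : ℕ | h ∉ J ∧ κ < ‖L (insert h J)‖}.Infinite := hinf
  obtain ⟨m, hm⟩ := exists_nat_gt (1 / κ ^ 2)
  obtain ⟨T, hT1, hT2⟩ := hinf'.exists_subset_card_eq m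
  have h1 := h T (by
    rw [disjoint_left]
    intro x hx
    exact (hT1 hx).1)
  have h2 : ∑ _h ∈ T, κ ^ 2 ≤ ∑ h ∈ T, ‖L (insert h J)‖ ^ 2 :=
    sum_le_sum fun x hx => pow_le_pow_left₀ hκ.le (hT1 hx).2.le 2
  rw [sum_const, hT2, nsmul_eq_mul] at h2
  rw [div_lt_iff₀ (by positivity)] at hm
  linarith

/-- the next element -/
lemma next {L : Finset ℕ → ℂ} (h : ∀ J T : Finset ℕ, Disjoint T J → ∑ h ∈ T, ‖L (insert h J)‖ ^ 2 ≤ 1)
    {S : Set ℕ} (hS : S.Infinite) (D : Finset ℕ) (κ : ℝ) (hκ : 0 < κ) :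
    ∃ d ∈ S, (∀ x ∈ D, x < d) ∧ ∀ I ⊆ D, ‖L (insert d I)‖ ≤ κ := by
  classical
  have h1 : (⋃ I ∈ D.powerset, {h : ℕ | h ∉ I ∧ κ < ‖L (insert h I)‖}).Finite :=
    Set.Finite.biUnion (finite_toSet _) fun I _ => few_exc (h I) κ hκ
  have h2 : ({x : ℕ | x ≤ D.sup id}).Finite := Set.finite_le_nat _
  obtain ⟨d, hdS, hd⟩ := (hS.sdiff (h1.union h2)).nonempty
  rw [Set.mem_union, not_or] at hd
  have hd2 : ∀ x ∈ D, x < d := by
    intro x hx
    have h3 : x ≤ D.sup id := le_sup (f := id) hx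
    have h4 : ¬ d ≤ D.sup id := hd.2
    omega
  refine ⟨d, hdS, hd2, fun I hI => ?_⟩
  by_contra hcon
  rw [not_le] at hcon
  apply hd.1
  rw [Set.mem_iUnion₂]
  refine ⟨I, mem_powerset.2 hI, ?_, hcon⟩
  intro hdI
  exact absurd (hd2 d (hI hdI)) (lt_irrefl _)

/-- the infinite set -/
lemma build {L : Finset ℕ → ℂ} (h : ∀ J T : Finset ℕ, Disjoint T J → ∑ h ∈ T, ‖L (insert h J)‖ ^ 2 ≤ 1)
    {S : Set ℕ} (hS : S.Infinite) (δ : ℝ) (hδ : 0 < δ) : ∃ D ⊆ S, D.Infinite ∧ ∀ D' : Finset ℕ, (D' : Set ℕ) ⊆ D →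
      ∑ I ∈ D'.powerset.erase ∅, ‖L I‖ ≤ δ := by
  classical
  have hnext : ∀ D : Finset ℕ, ∃ d, d ∈ S ∧ (∀ x ∈ D, x < d) ∧ ∀ I ⊆ D, ‖L (insert d I)‖ ≤ δ / 4 ^ (D.card + 1) :=
    fun D => by
      obtain ⟨d, h1, h2, h3⟩ := next h hS D (δ / 4 ^ (D.card + 1)) (by positivity)
      exact ⟨d, h1, h2, h3⟩
  choose g hg1 hg2 hg3 using hnext
  obtain ⟨A, hA0, hAs⟩ : ∃ A : ℕ → Finset ℕ, A 0 = ∅ ∧ ∀ n, A (n + 1) = insert (g (A n)) (A n) :=
    ⟨fun n => Nat.rec ∅ (fun _ D => insert (g D) D) n, rfl, fun n => rfl⟩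
  have hgA : ∀ n, g (A n) ∉ A n := fun n hn => absurd (hg2 _ _ hn) (lt_irrefl _)
  have hcard : ∀ n, (A n).card = n := by
    intro n
    induction n with
    | zero => rw [hA0, card_empty]
    | succ n ih => rw [hAs, card_insert_of_notMem (hgA n), ih]
  have hmono : Monotone A := monotone_nat_of_le_succ fun n => by
    rw [hAs]
    exact subset_insert _ _
  have hAS : ∀ n, (↑(A n) : Set ℕ) ⊆ S := by
    intro n
    induction n with
    | zero => rw [hA0, coe_empty]; exact Set.empty_subset _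
    | succ n ih =>
      rw [hAs, coe_insert]
      exact Set.insert_subset (hg1 _) ih
  have hsum : ∀ n, ∑ I ∈ (A n).powerset.erase ∅, ‖L I‖ ≤ δ * (1 - 1 / 2 ^ n) / 2 := by
    intro n
    induction n with
    | zero =>
      rw [hA0]
      simp
    | succ n ih =>
      have h1 : (A (n + 1)).powerset.erase ∅ = (A n).powerset.erase ∅ ∪ ((A n).powerset).image (insert (g (A n))) := by
        rw [hAs, powerset_insert]
        rw [erase_union_distrib]
        congr 1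
        apply erase_eq_of_notMem
        rw [mem_image]
        rintro ⟨I, -, hI⟩
        exact (insert_ne_empty _ _) hI
      have h2 : ∑ I ∈ ((A n).powerset).image (insert (g (A n))), ‖L I‖ ≤ 2 ^ n * (δ / 4 ^ (n + 1)) := by
        have h3 : ∑ I ∈ ((A n).powerset).image (insert (g (A n))), ‖L I‖ ≤
            ∑ _I ∈ ((A n).powerset).image (insert (g (A n))), δ / 4 ^ (n + 1) := by
          refine sum_le_sum fun I hI => ?_
          rw [mem_image] at hI
          obtain ⟨I', hI', rfl⟩ := hI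
          have h4 := hg3 (A n) I' (mem_powerset.1 hI')
          rwa [hcard] at h4
        rw [sum_const, nsmul_eq_mul] at h3
        refine h3.trans (mul_le_mul_of_nonneg_right ?_ (by positivity))
        have h5 : (((A n).powerset).image (insert (g (A n)))).card ≤ 2 ^ n := by
          refine card_image_le.trans ?_
          rw [card_powerset, hcard]
        exact_mod_cast h5
      rw [h1]
      have h8 := sum_union_inter (s₁ := (A n).powerset.erase ∅) (s₂ := ((A n).powerset).image (insert (g (A n))))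
        (f := fun I => ‖L I‖)
      have h9 : 0 ≤ ∑ I ∈ (A n).powerset.erase ∅ ∩ ((A n).powerset).image (insert (g (A n))), ‖L I‖ :=
        sum_nonneg fun _ _ => norm_nonneg _
      have h6 : (2 : ℝ) ^ n * (δ / 4 ^ (n + 1)) = δ / (4 * 2 ^ n) := by
        have : (4 : ℝ) ^ (n + 1) = 4 * (2 ^ n * 2 ^ n) := by
          rw [pow_succ, ← mul_pow]
          norm_num [mul_comm]
        rw [this]
        field_simp
      have h7 : δ * (1 - 1 / 2 ^ n) / 2 + δ / (4 * 2 ^ n) = δ * (1 - 1 / 2 ^ (n + 1)) / 2 := by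
        rw [pow_succ]
        field_simp
        ring
      rw [h6] at h2
      linarith
  refine ⟨⋃ n, (↑(A n) : Set ℕ), Set.iUnion_subset hAS, ?_, fun D' hD' => ?_⟩
  · intro hfin
    have h1 : ∀ n, n ≤ hfin.toFinset.card := by
      intro n
      rw [← hcard n]
      refine card_le_card fun x hx => ?_
      rw [Set.Finite.mem_toFinset, Set.mem_iUnion]
      exact ⟨n, hx⟩
    have := h1 (hfin.toFinset.card + 1)
    omega
  · have h1 : ∃ n, D' ⊆ A n := by
      have h2 : ∀ x ∈ D', ∃ n, x ∈ A n := fun x hx => Set.mem_iUnion.1 (hD' hx)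
      choose! m hm using h2
      refine ⟨D'.sup m, fun x hx => ?_⟩
      exact hmono (le_sup hx) (hm x hx)
    obtain ⟨n, hn⟩ := h1
    have h2 : ∑ I ∈ D'.powerset.erase ∅, ‖L I‖ ≤ ∑ I ∈ (A n).powerset.erase ∅, ‖L I‖ :=
      sum_le_sum_of_subset_of_nonneg (erase_subset_erase _ (powerset_mono.2 hn)) fun _ _ _ => norm_nonneg _
    refine h2.trans ((hsum n).trans ?_)
    have h3 : (0 : ℝ) < 1 / 2 ^ n := by positivity
    nlinarith

/-- **every infinite set of shifts contains an infinite set on which the signs are nearly independent** -/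
theorem inf (hf : ∀ n, f n = 1 ∨ f n = -1) {E : Set ℕ} (hE : Kf f E) {S : Set ℕ} (hS : S.Infinite) {𝒩 : Set ℕ}
    (h𝒩 : 𝒩.Infinite) (h𝒩E : ∀ N ∈ 𝒩, N ∉ E) (δ : ℝ) (hδ : 0 < δ) :
    ∃ D ⊆ S, D.Infinite ∧ ∃ u : ℕ → ℕ, StrictMono u ∧ (∀ j, u j ∈ 𝒩) ∧ ∀ D' : Finset ℕ, (D' : Set ℕ) ⊆ D →
      ∀ T ⊆ D', ∃ p : ℝ, |2 ^ D'.card * p - 1| ≤ δ ∧
        Tendsto (fun j => (((Icc 1 (u j)).filter (fun n => sgn f D' n = T)).card : ℝ) / u j) atTop (𝓝 p) := by
  classical
  obtain ⟨u, hu1, hu2, L, hL⟩ := scales hf h𝒩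
  obtain ⟨D, hD1, hD2, hD3⟩ := build (fun J T hT => lim_bessel hf hE hu1 (fun j => h𝒩E _ (hu2 j)) hL J T hT) hS δ hδ
  refine ⟨D, hD1, hD2, u, hu1, hu2, fun D' hD' T hT => ?_⟩
  -- the frequency of the pattern in terms of the correlations
  have hfr : ∀ N, fre f (fun _ => 1) D' T N 0 = (∑ I ∈ D'.powerset, chi I T * cor f (fun _ => 1) I N 0) / 2 ^ D'.card := by
    intro N
    have h1 : ∀ I ∈ D'.powerset, chi I T * cor f (fun _ => 1) I N 0 =
        ∑ T' ∈ D'.powerset, (chi I T * chi I T') * fre f (fun _ => 1) D' T' N 0 := by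
      intro I hI
      rw [← sum_chi_x hf (fun _ => 1) D' I (mem_powerset.1 hI) N 0,
        ← sum_chi_frq (Icc 1 N) D' (sgn f D') (fun n _ => filter_subset _ _), mul_sum]
      refine sum_congr rfl fun T' _ => ?_
      rw [frq_x]
      ring
    rw [sum_congr rfl h1, sum_comm]
    have h2 : ∀ T' ∈ D'.powerset, ∑ I ∈ D'.powerset, (chi I T * chi I T') * fre f (fun _ => 1) D' T' N 0 =
        if T = T' then 2 ^ D'.card * fre f (fun _ => 1) D' T N 0 else 0 := by
      intro T' hT'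
      rw [← sum_mul, orth D' T T' hT (mem_powerset.1 hT')]
      split_ifs with h
      · rw [h]
      · rw [zero_mul]
    rw [sum_congr rfl h2, sum_ite_eq, if_pos (mem_powerset.2 hT), mul_div_cancel_left₀ _ (pow_ne_zero _ two_ne_zero)]
  set q : ℂ := (∑ I ∈ D'.powerset, chi I T * L I) / 2 ^ D'.card with hq
  have hlim : Tendsto (fun j => fre f (fun _ => 1) D' T (u j) 0) atTop (𝓝 q) := by
    simp only [hfr]
    exact (tendsto_finsetSum _ fun I _ => (hL I).const_mul _).div_const _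
  have hcnt : ∀ N, fre f (fun _ => 1) D' T N 0 =
      (((((Icc 1 N).filter (fun n => sgn f D' n = T)).card : ℝ) / N : ℝ) : ℂ) := by
    intro N
    unfold fre
    have h1 : ∀ n ∈ (Icc 1 N).filter (fun n => sgn f D' n = T), (1 : ℂ) * ee (0 * (n : ℝ)) = 1 := by
      intro n _
      rw [zero_mul, one_mul]
      unfold ee
      simp
    rw [sum_congr rfl h1, sum_const, nsmul_eq_mul, mul_one]
    push_cast
    rfl
  have hre : Tendsto (fun j => (((Icc 1 (u j)).filter (fun n => sgn f D' n = T)).card : ℝ) / u j) atTop (𝓝 q.re) := by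
    have h1 := (Complex.continuous_re.tendsto q).comp hlim
    refine h1.congr fun j => ?_
    simp only [Function.comp]
    rw [hcnt, Complex.ofReal_re]
  refine ⟨q.re, ?_, hre⟩
  have hL0 : L ∅ = 1 := by
    have h1 : Tendsto (fun j => cor f (fun _ => 1) ∅ (u j) 0) atTop (𝓝 1) := by
      refine tendsto_const_nhds.congr' ?_
      filter_upwards [eventually_ge_atTop 1] with j hj
      have h2 : 1 ≤ u j := hj.trans (hu1.id_le j)
      unfold cor
      have h3 : ∀ n ∈ Icc 1 (u j), (1 : ℂ) * ee (0 * (n : ℝ)) * ∏ h ∈ (∅ : Finset ℕ), (f (n + h) : ℂ) = 1 := by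
        intro n _
        rw [zero_mul, one_mul, prod_empty, mul_one]
        unfold ee
        simp
      rw [sum_congr rfl h3, sum_const, Nat.card_Icc, Nat.add_sub_cancel, nsmul_eq_mul, mul_one]
      have h4 : ((u j : ℕ) : ℂ) ≠ 0 := by exact_mod_cast (by omega : u j ≠ 0)
      exact (div_self h4).symm
    exact tendsto_nhds_unique (hL ∅) h1
  have h2 : (2 : ℂ) ^ D'.card * q - 1 = ∑ I ∈ D'.powerset.erase ∅, chi I T * L I := by
    rw [hq, mul_div_cancel₀ _ (pow_ne_zero _ two_ne_zero), ← sum_erase_add _ _ (empty_mem_powerset D'), chi_empty, hL0,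
      mul_one, add_sub_cancel_right]
  have h3 : ((2 : ℝ) ^ D'.card * q.re - 1) = ((2 : ℂ) ^ D'.card * q - 1).re := by
    have e1 : (2 : ℂ) ^ D'.card = ((2 ^ D'.card : ℝ) : ℂ) := by push_cast; rfl
    rw [Complex.sub_re, Complex.one_re, e1, Complex.re_ofReal_mul]
  rw [h3]
  refine (Complex.abs_re_le_norm _).trans ?_
  rw [h2]
  refine (norm_sum_le _ _).trans (le_trans (sum_le_sum fun I _ => ?_) (hD3 D' hD'))
  rw [norm_mul]
  have h4 : ‖chi I T‖ ≤ 1 := by
    rw [chi_eq, norm_pow, norm_neg, norm_one, one_pow]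
  calc ‖chi I T‖ * ‖L I‖ ≤ 1 * ‖L I‖ := mul_le_mul_of_nonneg_right h4 (norm_nonneg _)
    _ = ‖L I‖ := one_mul _

end

end Pool.Agent.U708.MS
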