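import Mathlib

/-! # Sums over the subsets of most subsets of a finite set (helper708) -/

set_option autoImplicit false

namespace Pool.Agent.U708.MS

open Finset

/-- double counting of the pairs of a set and an element -/
lemma count_pairs (S : Finset ℕ) (a : Finset ℕ → ℝ) (j : ℕ) :
    ∑ J ∈ S.powersetCard j, ∑ h ∈ S \ J, a (insert h J) = (j + 1) * ∑ I ∈ S.powersetCard (j + 1), a I := by
  classical
  have h1 : (j + 1 : ℝ) * ∑ I ∈ S.powersetCard (j + 1), a I = ∑ I ∈ S.powersetCard (j + 1), ∑ _h ∈ I, a I := by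
    rw [mul_sum]
    refine sum_congr rfl fun I hI => ?_
    rw [sum_const, (mem_powersetCard.1 hI).2, nsmul_eq_mul]
    push_cast
    ring
  rw [h1, sum_sigma', sum_sigma']
  refine sum_bij' (fun x _ => (⟨insert x.2 x.1, x.2⟩ : Σ _ : Finset ℕ, ℕ))
    (fun x _ => (⟨x.1.erase x.2, x.2⟩ : Σ _ : Finset ℕ, ℕ)) ?_ ?_ ?_ ?_ ?_
  · rintro ⟨J, h⟩ hx
    simp only [mem_sigma, mem_powersetCard, mem_sdiff] at hx ⊢
    refine ⟨⟨insert_subset hx.2.1 hx.1.1, ?_⟩, mem_insert_self _ _⟩
    rw [card_insert_of_notMem hx.2.2, hx.1.2]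
  · rintro ⟨I, h⟩ hx
    simp only [mem_sigma, mem_powersetCard, mem_sdiff] at hx ⊢
    refine ⟨⟨(erase_subset _ _).trans hx.1.1, ?_⟩, hx.1.1 hx.2, notMem_erase _ _⟩
    rw [card_erase_of_mem hx.2, hx.1.2]
    rfl
  · rintro ⟨J, h⟩ hx
    simp only [mem_sigma, mem_powersetCard, mem_sdiff] at hx
    simp only [erase_insert hx.2.2]
  · rintro ⟨I, h⟩ hx
    simp only [mem_sigma, mem_powersetCard] at hx
    simp only [insert_erase hx.2]
  · rintro ⟨J, h⟩ hx
    rfl

/-- the sum over the subsets with `j + 1` elements -/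
theorem sumA (S : Finset ℕ) (a : Finset ℕ → ℝ) (B : ℝ) (j : ℕ) (hj : j < S.card)
    (H : ∀ J ⊆ S, ∑ h ∈ S \ J, a (insert h J) ≤ B) :
    ((S.card : ℝ) - j) * ∑ I ∈ S.powersetCard (j + 1), a I ≤ (S.card.choose (j + 1) : ℝ) * B := by
  have h1 : (j + 1 : ℝ) * ∑ I ∈ S.powersetCard (j + 1), a I ≤ (S.card.choose j : ℝ) * B := by
    rw [← count_pairs]
    refine (sum_le_sum fun J hJ => H J (mem_powersetCard.1 hJ).1).trans (le_of_eq ?_)
    rw [sum_const, card_powersetCard, nsmul_eq_mul]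
  have h2 : (S.card.choose (j + 1) : ℝ) * (j + 1) = S.card.choose j * ((S.card : ℝ) - j) := by
    have h3 := Nat.choose_succ_right_eq S.card j
    have h4 : ((S.card.choose (j + 1) * (j + 1) : ℕ) : ℝ) = ((S.card.choose j * (S.card - j) : ℕ) : ℝ) := by
      exact_mod_cast h3
    push_cast [Nat.cast_sub hj.le] at h4
    exact h4
  have hj0 : (0 : ℝ) < j + 1 := by positivity
  have hM : (0 : ℝ) ≤ (S.card : ℝ) - j := by
    have : (j : ℝ) < S.card := by exact_mod_cast hj
    linarith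
  have h5 := mul_le_mul_of_nonneg_left h1 hM
  have h6 : (j + 1 : ℝ) * (((S.card : ℝ) - j) * ∑ I ∈ S.powersetCard (j + 1), a I) ≤
      (j + 1 : ℝ) * ((S.card.choose (j + 1) : ℝ) * B) := by
    calc (j + 1 : ℝ) * (((S.card : ℝ) - j) * ∑ I ∈ S.powersetCard (j + 1), a I)
        = ((S.card : ℝ) - j) * ((j + 1 : ℝ) * ∑ I ∈ S.powersetCard (j + 1), a I) := by ring
      _ ≤ ((S.card : ℝ) - j) * ((S.card.choose j : ℝ) * B) := h5
      _ = (S.card.choose j * ((S.card : ℝ) - j)) * B := by ring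
      _ = _ := by rw [← h2]; ring
  exact le_of_mul_le_mul_left h6 hj0

/-- the number of the sets with `n` elements which contain a given set -/
lemma card_super (S I : Finset ℕ) (hI : I ⊆ S) (n : ℕ) (hn : I.card ≤ n) :
    ((S.powersetCard n).filter (fun D => I ⊆ D)).card = (S.card - I.card).choose (n - I.card) := by
  classical
  rw [← card_sdiff_of_subset hI, ← card_powersetCard]
  refine card_bij' (fun D _ => D \ I) (fun D _ => D ∪ I) ?_ ?_ ?_ ?_
  · intro D hD
    rw [mem_filter, mem_powersetCard] at hD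
    rw [mem_powersetCard]
    refine ⟨sdiff_subset_sdiff hD.1.1 le_rfl, ?_⟩
    rw [card_sdiff_of_subset hD.2, hD.1.2]
  · intro D hD
    rw [mem_powersetCard] at hD
    rw [mem_filter, mem_powersetCard]
    have hdis : Disjoint D I := by
      refine disjoint_of_subset_left hD.1 sdiff_disjoint
    refine ⟨⟨union_subset (hD.1.trans sdiff_subset) hI, ?_⟩, subset_union_right⟩
    rw [card_union_of_disjoint hdis, hD.2]
    omega
  · intro D hD
    rw [mem_filter] at hD
    exact sdiff_union_of_subset hD.2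
  · intro D hD
    rw [mem_powersetCard] at hD
    have hdis : Disjoint D I := disjoint_of_subset_left hD.1 sdiff_disjoint
    show (D ∪ I) \ I = D
    rw [union_sdiff_right]
    exact sdiff_eq_self_of_disjoint hdis

/-- the sum over all nonempty subsets -/
lemma sum_nonempty (D : Finset ℕ) (a : Finset ℕ → ℝ) :
    ∑ I ∈ D.powerset.erase ∅, a I = ∑ j ∈ range D.card, ∑ I ∈ D.powersetCard (j + 1), a I := by
  classical
  have h1 : ∑ I ∈ D.powerset.erase ∅, a I + a ∅ = ∑ I ∈ D.powerset, a I :=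
    sum_erase_add _ _ (empty_mem_powerset D)
  have h2 := sum_powerset D a
  rw [sum_range_succ', powersetCard_zero, sum_singleton] at h2
  linarith

/-- the mean over the sets `D ⊆ S` with `n` elements of the sum over the nonempty subsets of `D` -/
theorem sumB (S : Finset ℕ) (a : Finset ℕ → ℝ) (ha : ∀ I, 0 ≤ a I) (B : ℝ) (hB : 0 ≤ B) (n : ℕ)
    (hn : n ≤ S.card) (H : ∀ J ⊆ S, ∑ h ∈ S \ J, a (insert h J) ≤ B) :
    ((S.card : ℝ) - n + 1) * ∑ D ∈ S.powersetCard n, ∑ I ∈ D.powerset.erase ∅, a I ≤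
      (S.card.choose n : ℝ) * (2 ^ n * B) := by
  classical
  have h1 : ∑ D ∈ S.powersetCard n, ∑ I ∈ D.powerset.erase ∅, a I =
      ∑ j ∈ range n, ((S.card - (j + 1)).choose (n - (j + 1)) : ℝ) * ∑ I ∈ S.powersetCard (j + 1), a I := by
    have h2 : ∀ D ∈ S.powersetCard n, ∑ I ∈ D.powerset.erase ∅, a I =
        ∑ j ∈ range n, ∑ I ∈ D.powersetCard (j + 1), a I := by
      intro D hD
      rw [sum_nonempty, (mem_powersetCard.1 hD).2]
    rw [sum_congr rfl h2, sum_comm]
    refine sum_congr rfl fun j hj => ?_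
    have h3 : ∑ D ∈ S.powersetCard n, ∑ I ∈ D.powersetCard (j + 1), a I =
        ∑ I ∈ S.powersetCard (j + 1), ∑ _D ∈ (S.powersetCard n).filter (fun D => I ⊆ D), a I := by
      refine sum_comm' fun D I => ?_
      rw [mem_powersetCard, mem_powersetCard, mem_powersetCard, mem_filter, mem_powersetCard]
      constructor
      · rintro ⟨⟨h4, h5⟩, h6, h7⟩
        exact ⟨⟨⟨h4, h5⟩, h6⟩, h6.trans h4, h7⟩
      · rintro ⟨⟨⟨h4, h5⟩, h6⟩, -, h7⟩
        exact ⟨⟨h4, h5⟩, h6, h7⟩
    rw [h3, mul_sum]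
    refine sum_congr rfl fun I hI => ?_
    rw [mem_powersetCard] at hI
    rw [sum_const, card_super S I hI.1 n (by rw [hI.2]; exact mem_range.1 hj), hI.2, nsmul_eq_mul]
  rw [h1, mul_sum]
  have hMn : (0 : ℝ) ≤ (S.card : ℝ) - n := by
    have : (n : ℝ) ≤ S.card := by exact_mod_cast hn
    linarith
  have h4 : ∀ j ∈ range n, ((S.card : ℝ) - n + 1) * (((S.card - (j + 1)).choose (n - (j + 1)) : ℝ) *
      ∑ I ∈ S.powersetCard (j + 1), a I) ≤ (S.card.choose n : ℝ) * (n.choose (j + 1) : ℝ) * B := by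
    intro j hj
    rw [mem_range] at hj
    have h5 := sumA S a B j (by omega) H
    have h6 : 0 ≤ ∑ I ∈ S.powersetCard (j + 1), a I := sum_nonneg fun I _ => ha I
    have h7 : ((S.card : ℝ) - n + 1) ≤ (S.card : ℝ) - j := by
      have : (j : ℝ) + 1 ≤ n := by exact_mod_cast hj
      linarith
    have h8 : ((S.card : ℝ) - n + 1) * ∑ I ∈ S.powersetCard (j + 1), a I ≤
        (S.card.choose (j + 1) : ℝ) * B := (mul_le_mul_of_nonneg_right h7 h6).trans h5
    have h9 : (S.card.choose n : ℝ) * (n.choose (j + 1) : ℝ) =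
        (S.card.choose (j + 1) : ℝ) * ((S.card - (j + 1)).choose (n - (j + 1)) : ℝ) := by
      exact_mod_cast Nat.choose_mul (n := S.card) (k := n) (s := j + 1) (by omega)
    rw [h9]
    have h10 := mul_le_mul_of_nonneg_left h8 (Nat.cast_nonneg (α := ℝ) ((S.card - (j + 1)).choose (n - (j + 1))))
    linarith
  refine (sum_le_sum h4).trans ?_
  rw [← sum_mul, ← mul_sum, mul_assoc]
  refine mul_le_mul_of_nonneg_left ?_ (Nat.cast_nonneg _)
  refine mul_le_mul_of_nonneg_right ?_ hB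
  have h11 : ∑ m ∈ range (n + 1), n.choose m = 2 ^ n := Nat.sum_range_choose n
  rw [sum_range_succ'] at h11
  have h12 : ∑ j ∈ range n, n.choose (j + 1) ≤ 2 ^ n := by omega
  exact_mod_cast h12

end Pool.Agent.U708.MS
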