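import Pool.Agent.U708.MS.Bes
import Pool.Agent.U708.MS.Sub
import Pool.Agent.U708.MS.Four

/-! # Correlations and sign patterns on most subsets of a set of shifts (helper708) -/

set_option autoImplicit false

namespace Pool.Agent.U708.MS

open Finset Filter Topology
open Pool.Agent.Helper602.MK (ee)
open Pool.Agent.Helper602.MK.N_J1c (c_ee_add c_ee_int c_norm_ee)
open Pool.Agent.Y842.PH Pool.Agent.R296.RE Pool.Agent.R296.VC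

noncomputable section

/-- the correlation of `f` on the set `I` of shifts, with the weight `w` and the phase `θ` -/
def cor (f : ℕ → ℤ) (w : ℕ → ℂ) (I : Finset ℕ) (N : ℕ) (θ : ℝ) : ℂ :=
  (∑ n ∈ Icc 1 N, w n * ee (θ * n) * ∏ h ∈ I, (f (n + h) : ℂ)) / N

/-- the square mean of the weight -/
def msq (w : ℕ → ℂ) (N : ℕ) : ℝ := (∑ n ∈ Icc 1 N, ‖w n‖ ^ 2) / N

lemma msq_nonneg (w : ℕ → ℂ) (N : ℕ) : 0 ≤ msq w N :=
  div_nonneg (sum_nonneg fun _ _ => sq_nonneg _) (Nat.cast_nonneg _)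

/-- the members `h` of `D` with `f (n + h) = -1` -/
def sgn (f : ℕ → ℤ) (D : Finset ℕ) (n : ℕ) : Finset ℕ := D.filter (fun h => f (n + h) = -1)

/-- the weight of the `n ≤ N` with the sign pattern `T` on `D` -/
def fre (f : ℕ → ℤ) (w : ℕ → ℂ) (D T : Finset ℕ) (N : ℕ) (θ : ℝ) : ℂ :=
  (∑ n ∈ (Icc 1 N).filter (fun n => sgn f D n = T), w n * ee (θ * n)) / N

variable {f : ℕ → ℤ}

lemma abs_of (hf : ∀ n, f n = 1 ∨ f n = -1) (n : ℕ) : |f n| ≤ 1 := by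
  rcases hf n with h | h <;> rw [h] <;> simp

lemma norm_prod_one (hf : ∀ n, f n = 1 ∨ f n = -1) (I : Finset ℕ) (n : ℕ) :
    ‖∏ h ∈ I, (f (n + h) : ℂ)‖ = 1 := by
  rw [norm_prod]
  refine prod_eq_one fun h _ => ?_
  rcases hf (n + h) with h1 | h1 <;> rw [h1] <;> simp

lemma chi_sgn (hf : ∀ n, f n = 1 ∨ f n = -1) (D I : Finset ℕ) (hI : I ⊆ D) (n : ℕ) :
    chi I (sgn f D n) = ∏ h ∈ I, (f (n + h) : ℂ) := by
  unfold chi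
  refine prod_congr rfl fun h hh => ?_
  unfold sg sgn
  rcases hf (n + h) with h1 | h1
  · rw [if_neg, h1, Int.cast_one]
    rw [mem_filter, h1]
    simp
  · rw [if_pos, h1, Int.cast_neg, Int.cast_one]
    rw [mem_filter]
    exact ⟨hI hh, h1⟩

theorem hyp (hf : ∀ n, f n = 1 ∨ f n = -1) {E : Set ℕ} (hE : Kf f E) (S : Finset ℕ) (ε : ℝ) (hε : 0 < ε) :
    ∃ N₀ : ℕ, ∀ N ≥ N₀, N ∉ E → ∀ w : ℕ → ℂ, (∀ n, ‖w n‖ ≤ 1) → ∀ θ : Finset ℕ → ℝ, ∀ J ⊆ S,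
      ∑ h ∈ S \ J, ‖cor f w (insert h J) N (θ (insert h J))‖ ^ 2 ≤ msq w N + ε := by
  obtain ⟨N₀, h1⟩ := bessel (abs_of hf) hE S ε hε
  refine ⟨N₀, fun N hN hNE w hw θ J hJ => ?_⟩
  have h2 := h1 N hN hNE (fun n => w n * ∏ h ∈ J, (f (n + h) : ℂ)) (fun n => by
    rw [norm_mul, norm_prod_one hf, mul_one]
    exact hw n) (fun h => θ (insert h J)) (S \ J) sdiff_subset
  have e1 : ∑ n ∈ Icc 1 N, ‖w n * ∏ h ∈ J, (f (n + h) : ℂ)‖ ^ 2 = ∑ n ∈ Icc 1 N, ‖w n‖ ^ 2 :=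
    sum_congr rfl fun n _ => by rw [norm_mul, norm_prod_one hf, mul_one]
  rw [e1] at h2
  refine le_trans (le_of_eq (sum_congr rfl fun h hh => ?_)) h2
  congr 2
  unfold cor mn
  congr 1
  refine sum_congr rfl fun n _ => ?_
  rw [prod_insert (mem_sdiff.1 hh).2]
  ring

/-- **mean square over the subsets with `k` elements** -/
theorem thmA (hf : ∀ n, f n = 1 ∨ f n = -1) {E : Set ℕ} (hE : Kf f E) (S : Finset ℕ) (ε : ℝ) (hε : 0 < ε) :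
    ∃ N₀ : ℕ, ∀ N ≥ N₀, N ∉ E → ∀ w : ℕ → ℂ, (∀ n, ‖w n‖ ≤ 1) → ∀ θ : Finset ℕ → ℝ, ∀ k : ℕ, 1 ≤ k → k ≤ S.card →
      ((S.card : ℝ) - k + 1) * ∑ I ∈ S.powersetCard k, ‖cor f w I N (θ I)‖ ^ 2 ≤
        (S.card.choose k : ℝ) * (msq w N + ε) := by
  obtain ⟨N₀, h1⟩ := hyp hf hE S ε hε
  refine ⟨N₀, fun N hN hNE w hw θ k hk hkS => ?_⟩
  obtain ⟨j, rfl⟩ : ∃ j, k = j + 1 := ⟨k - 1, by omega⟩
  have h2 := sumA S (fun I => ‖cor f w I N (θ I)‖ ^ 2) (msq w N + ε) j (by omega) (fun J hJ => h1 N hN hNE w hw θ J hJ)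
  refine le_trans (le_of_eq ?_) h2
  congr 1
  push_cast
  ring

/-- the sets `D` for which the correlations of the subsets are large, for some phase -/
theorem bad (hf : ∀ n, f n = 1 ∨ f n = -1) {E : Set ℕ} (hE : Kf f E) (S : Finset ℕ) (ε : ℝ) (hε : 0 < ε) :
    ∃ N₀ : ℕ, ∀ N ≥ N₀, N ∉ E → ∀ w : ℕ → ℂ, (∀ n, ‖w n‖ ≤ 1) → ∀ n : ℕ, n ≤ S.card → ∀ κ : ℝ, 0 ≤ κ →
      ∀ P ⊆ S.powersetCard n, (∀ D ∈ P, ∃ θ : ℝ, κ < ∑ I ∈ D.powerset.erase ∅, ‖cor f w I N θ‖ ^ 2) →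
        ((S.card : ℝ) - n + 1) * (κ * P.card) ≤ (S.card.choose n : ℝ) * (2 ^ n * (msq w N + ε)) := by
  classical
  obtain ⟨N₀, h1⟩ := hyp hf hE S ε hε
  refine ⟨N₀, fun N hN hNE w hw n hn κ hκ P hP hbad => ?_⟩
  have hM : (0 : ℝ) ≤ (S.card : ℝ) - n + 1 := by
    have : (n : ℝ) ≤ S.card := by exact_mod_cast hn
    linarith
  have hB : 0 ≤ msq w N + ε := add_nonneg (msq_nonneg _ _) hε.le
  rcases P.eq_empty_or_nonempty with hPe | hPn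
  · rw [hPe, card_empty, Nat.cast_zero, mul_zero, mul_zero]
    positivity
  choose! θ hθ using hbad
  have hmax : ∀ I : Finset ℕ, ∃ D' ∈ P, ∀ D ∈ P, ‖cor f w I N (θ D)‖ ≤ ‖cor f w I N (θ D')‖ := by
    intro I
    exact exists_max_image P (fun D => ‖cor f w I N (θ D)‖) hPn
  choose m hm1 hm2 using hmax
  have h2 := sumB S (fun I => ‖cor f w I N (θ (m I))‖ ^ 2) (fun I => sq_nonneg _) (msq w N + ε) hB n hn
    (fun J hJ => h1 N hN hNE w hw (fun I => θ (m I)) J hJ)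
  refine le_trans (mul_le_mul_of_nonneg_left ?_ hM) h2
  calc κ * P.card = ∑ _D ∈ P, κ := by rw [sum_const, nsmul_eq_mul, mul_comm]
    _ ≤ ∑ D ∈ P, ∑ I ∈ D.powerset.erase ∅, ‖cor f w I N (θ (m I))‖ ^ 2 := by
        refine sum_le_sum fun D hD => (hθ D hD).le.trans (sum_le_sum fun I _ => ?_)
        exact pow_le_pow_left₀ (norm_nonneg _) (hm2 I D hD) 2
    _ ≤ _ := sum_le_sum_of_subset_of_nonneg hP fun D _ _ => sum_nonneg fun I _ => sq_nonneg _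

lemma sum_chi_x (hf : ∀ n, f n = 1 ∨ f n = -1) (w : ℕ → ℂ) (D I : Finset ℕ) (hI : I ⊆ D) (N : ℕ) (θ : ℝ) :
    ∑ n ∈ Icc 1 N, chi I (sgn f D n) * (w n * ee (θ * n) / N) = cor f w I N θ := by
  unfold cor
  rw [sum_div]
  refine sum_congr rfl fun n _ => ?_
  rw [chi_sgn hf D I hI n]
  ring

lemma frq_x (w : ℕ → ℂ) (D T : Finset ℕ) (N : ℕ) (θ : ℝ) :
    frq (Icc 1 N) (sgn f D) (fun n => w n * ee (θ * n) / N) T = fre f w D T N θ := by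
  classical
  unfold frq fre
  rw [sum_div]

lemma cor_empty (w : ℕ → ℂ) (N : ℕ) (θ : ℝ) :
    ∑ n ∈ Icc 1 N, (w n * ee (θ * n) / N) = cor f w ∅ N θ := by
  unfold cor
  rw [sum_div]
  exact sum_congr rfl fun n _ => by rw [prod_empty, mul_one]

lemma tv_le (hf : ∀ n, f n = 1 ∨ f n = -1) (w : ℕ → ℂ) (D : Finset ℕ) (N : ℕ) (θ : ℝ) :
    (∑ T ∈ D.powerset, ‖fre f w D T N θ - cor f w ∅ N θ / 2 ^ D.card‖) ^ 2 ≤
      ∑ I ∈ D.powerset.erase ∅, ‖cor f w I N θ‖ ^ 2 := by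
  have h1 := total_var (Icc 1 N) D (sgn f D) (fun n _ => filter_subset _ _) (fun n => w n * ee (θ * n) / N)
  simp only [frq_x, cor_empty (f := f)] at h1
  refine h1.trans (le_of_eq (sum_congr rfl fun I hI => ?_))
  rw [sum_chi_x hf w D I (mem_powerset.1 (mem_erase.1 hI).2)]

lemma one_le (hf : ∀ n, f n = 1 ∨ f n = -1) (w : ℕ → ℂ) (D T : Finset ℕ) (hT : T ⊆ D) (N : ℕ) (θ : ℝ) :
    (2 ^ D.card * ‖fre f w D T N θ - cor f w ∅ N θ / 2 ^ D.card‖) ^ 2 ≤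
      2 ^ D.card * ∑ I ∈ D.powerset.erase ∅, ‖cor f w I N θ‖ ^ 2 := by
  have h1 := one_pattern (Icc 1 N) D (sgn f D) (fun n _ => filter_subset _ _) (fun n => w n * ee (θ * n) / N) T hT
  simp only [frq_x, cor_empty (f := f)] at h1
  refine h1.trans (le_of_eq ?_)
  congr 1
  refine sum_congr rfl fun I hI => ?_
  rw [sum_chi_x hf w D I (mem_powerset.1 (mem_erase.1 hI).2)]

/-- **the law of the signs is near the uniform law for most `D`** -/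
theorem thmB (hf : ∀ n, f n = 1 ∨ f n = -1) {E : Set ℕ} (hE : Kf f E) (S : Finset ℕ) (ε : ℝ) (hε : 0 < ε) :
    ∃ N₀ : ℕ, ∀ N ≥ N₀, N ∉ E → ∀ w : ℕ → ℂ, (∀ n, ‖w n‖ ≤ 1) → ∀ n : ℕ, n ≤ S.card → ∀ δ : ℝ, 0 < δ →
      ∀ P ⊆ S.powersetCard n, (∀ D ∈ P, ∃ θ : ℝ, δ < ∑ T ∈ D.powerset, ‖fre f w D T N θ - cor f w ∅ N θ / 2 ^ n‖) →
        ((S.card : ℝ) - n + 1) * (δ ^ 2 * P.card) ≤ (S.card.choose n : ℝ) * (2 ^ n * (msq w N + ε)) := by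
  obtain ⟨N₀, h1⟩ := bad hf hE S ε hε
  refine ⟨N₀, fun N hN hNE w hw n hn δ hδ P hP hbad => h1 N hN hNE w hw n hn (δ ^ 2) (sq_nonneg _) P hP ?_⟩
  intro D hD
  obtain ⟨θ, h2⟩ := hbad D hD
  refine ⟨θ, lt_of_lt_of_le ?_ (tv_le hf w D N θ)⟩
  rw [(mem_powersetCard.1 (hP hD)).2]
  exact pow_lt_pow_left₀ h2 hδ.le two_ne_zero

/-- **all patterns for most `D`** -/
theorem thmC (hf : ∀ n, f n = 1 ∨ f n = -1) {E : Set ℕ} (hE : Kf f E) (S : Finset ℕ) (ε : ℝ) (hε : 0 < ε) :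
    ∃ N₀ : ℕ, ∀ N ≥ N₀, N ∉ E → ∀ w : ℕ → ℂ, (∀ n, ‖w n‖ ≤ 1) → ∀ n : ℕ, n ≤ S.card → ∀ δ : ℝ, 0 < δ →
      ∀ P ⊆ S.powersetCard n, (∀ D ∈ P, ∃ θ : ℝ, ∃ T ⊆ D, δ / 2 ^ n < ‖fre f w D T N θ - cor f w ∅ N θ / 2 ^ n‖) →
        ((S.card : ℝ) - n + 1) * (δ ^ 2 * P.card) ≤ (S.card.choose n : ℝ) * (4 ^ n * (msq w N + ε)) := by
  obtain ⟨N₀, h1⟩ := bad hf hE S ε hε
  refine ⟨N₀, fun N hN hNE w hw n hn δ hδ P hP hbad => ?_⟩
  have h0 : (0 : ℝ) < 2 ^ n := by positivity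
  have h2 := h1 N hN hNE w hw n hn (δ ^ 2 / 2 ^ n) (by positivity) P hP (by
    intro D hD
    obtain ⟨θ, T, hT, h3⟩ := hbad D hD
    refine ⟨θ, ?_⟩
    have h4 := one_le hf w D T hT N θ
    rw [(mem_powersetCard.1 (hP hD)).2] at h4
    rw [div_lt_iff₀ h0] at h3 ⊢
    have h5 : δ ^ 2 < (2 ^ n * ‖fre f w D T N θ - cor f w ∅ N θ / 2 ^ n‖) ^ 2 :=
      pow_lt_pow_left₀ (by linarith) hδ.le two_ne_zero
    linarith)
  have h3 := mul_le_mul_of_nonneg_left h2 h0.le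
  have h4 : (4 : ℝ) ^ n = 2 ^ n * 2 ^ n := by
    rw [← mul_pow]
    norm_num
  rw [h4]
  calc ((S.card : ℝ) - n + 1) * (δ ^ 2 * P.card) =
      2 ^ n * (((S.card : ℝ) - n + 1) * (δ ^ 2 / 2 ^ n * P.card)) := by field_simp
    _ ≤ _ := h3
    _ = _ := by ring

end

end Pool.Agent.U708.MS
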